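import Pool.Agent.V5helper29.RLS.Stm

set_option autoImplicit false

namespace Pool.Agent.V5helper29.RLS

open Finset

/-- the fibre over the coordinates outside of `J` -/
theorem lo_fibre {ι : Type} [Fintype ι] [DecidableEq ι] (u : ι → ℝ) (s a d c : ℝ) (hs : 0 < s) (hd : 1 ≤ d)
    (hu : ∀ j, s ≤ |u j|) :
    (univ.filter (fun τ : ι → Bool => |∑ j, val a d (τ j) * u j - c| ≤ s / 4)).card ≤
      (Fintype.card ι).choose (Fintype.card ι / 2) := by
  classical
  set X : (ι → Bool) → Finset ι := fun τ => univ.filter (fun j => if 0 < u j then τ j = true else τ j = false)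
    with hX
  have hmem : ∀ τ j, j ∈ X τ ↔ (if 0 < u j then τ j = true else τ j = false) := by
    intro τ j
    simp [hX]
  have hinj : Function.Injective X := by
    intro τ τ' h
    funext j
    have h1 := hmem τ j
    have h2 := hmem τ' j
    rw [h] at h1
    have h3 := h1.symm.trans h2
    by_cases hj : 0 < u j
    · simp only [hj, if_true] at h3
      cases hτ : τ j <;> cases hτ' : τ' j <;> simp_all
    · simp only [hj, if_false] at h3
      cases hτ : τ j <;> cases hτ' : τ' j <;> simp_all
  rw [← card_image_of_injective _ hinj]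
  apply IsAntichain.sperner
  intro A hA B hB hne hsub
  rw [mem_coe, mem_image] at hA hB
  obtain ⟨τ, hτ, rfl⟩ := hA
  obtain ⟨τ', hτ', rfl⟩ := hB
  rw [mem_filter] at hτ hτ'
  have hτ := hτ.2
  have hτ' := hτ'.2
  -- some coordinate is in the difference
  obtain ⟨k, hk, hk'⟩ : ∃ k, k ∈ X τ' ∧ k ∉ X τ := by
    by_contra hcon
    push Not at hcon
    exact hne (Subset.antisymm hsub hcon)
  have hterm : ∀ j, 0 ≤ val a d (τ' j) * u j - val a d (τ j) * u j := by
    intro j
    have h1 := hmem τ j
    have h2 := hmem τ' j
    have h3 : j ∈ X τ → j ∈ X τ' := fun h => hsub h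
    by_cases hj : 0 < u j
    · simp only [hj, if_true] at h1 h2
      rw [h1, h2] at h3
      cases hτj : τ j <;> cases hτj' : τ' j <;> simp_all [val] <;> nlinarith
    · simp only [hj, if_false] at h1 h2
      rw [h1, h2] at h3
      push Not at hj
      cases hτj : τ j <;> cases hτj' : τ' j <;> simp_all [val] <;> nlinarith
  have hk3 : s ≤ val a d (τ' k) * u k - val a d (τ k) * u k := by
    have h1 := hmem τ k
    have h2 := hmem τ' k
    have h4 := hu k
    by_cases hj : 0 < u k
    · simp only [hj, if_true] at h1 h2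
      have e1 : τ' k = true := h2.1 hk
      have e2 : τ k = false := by
        cases h : τ k
        · rfl
        · exact absurd (h1.2 h) hk'
      rw [abs_of_pos hj] at h4
      rw [e1, e2]
      simp only [val, if_true]
      simp
      nlinarith
    · simp only [hj, if_false] at h1 h2
      have e1 : τ' k = false := h2.1 hk
      have e2 : τ k = true := by
        cases h : τ k
        · exact absurd (h1.2 h) hk'
        · rfl
      push Not at hj
      rw [abs_of_nonpos hj] at h4
      rw [e1, e2]
      simp only [val, if_true]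
      simp
      nlinarith
  have hsum : s ≤ ∑ j, (val a d (τ' j) * u j - val a d (τ j) * u j) :=
    hk3.trans (single_le_sum (f := fun j => val a d (τ' j) * u j - val a d (τ j) * u j)
      (fun j _ => hterm j) (mem_univ k))
  rw [sum_sub_distrib] at hsum
  rw [abs_le] at hτ hτ'
  linarith [hτ.1, hτ.2, hτ'.1, hτ'.2]

theorem lo : S_LO := by
  classical
  intro n u J s a d θ hs hd hJ
  set P : (Fin n → Bool) → Prop := fun ξ => |∑ j, val a d (ξ j) * u j - θ| ≤ s / 4 with hP
  have h1 : {ξ : Fin n → Bool | |∑ j, val a d (ξ j) * u j - θ| ≤ s / 4}.ncard = (univ.filter P).card := by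
    rw [← Set.ncard_coe_finset]
    congr 1
    ext ξ
    simp [hP]
  rw [h1]
  set e := Equiv.piEquivPiSubtypeProd (fun j => j ∈ J) (fun _ : Fin n => Bool) with he
  have h2 : (univ.filter P).card ≤ 2 ^ (n - J.card) * J.card.choose (J.card / 2) := by
    rw [card_filter, ← Equiv.sum_comp e.symm, Fintype.sum_prod_type_right]
    have h3 : ∀ η : {j // ¬ j ∈ J} → Bool, ∑ τ : {j // j ∈ J} → Bool, (if P (e.symm (τ, η)) then 1 else 0) ≤
        J.card.choose (J.card / 2) := by
      intro η
      rw [← card_filter]
      have h4 := lo_fibre (ι := {j // j ∈ J}) (fun j => u j) s a d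
        (θ - ∑ j : {j // ¬ j ∈ J}, val a d (η j) * u j) hs hd (fun j => hJ j j.2)
      rw [Fintype.card_coe] at h4
      refine le_trans (le_of_eq ?_) h4
      congr 1
      ext τ
      simp only [mem_filter, mem_univ, true_and, hP]
      rw [← Fintype.sum_subtype_add_sum_subtype (fun j => j ∈ J)]
      have e1 : ∀ j : {j // j ∈ J}, e.symm (τ, η) j = τ j := by
        intro j
        simp [he, Equiv.piEquivPiSubtypeProd, j.2]
      have e2 : ∀ j : {j // ¬ j ∈ J}, e.symm (τ, η) j = η j := by
        intro j
        simp [he, Equiv.piEquivPiSubtypeProd, j.2]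
      simp only [e1, e2]
      rw [sub_sub_eq_add_sub]
      convert Iff.rfl
    refine (sum_le_sum fun η _ => h3 η).trans ?_
    rw [sum_const, smul_eq_mul, card_univ, Fintype.card_fun, Fintype.card_bool]
    have h5 : Fintype.card {j // ¬ j ∈ J} = n - J.card := by
      rw [Fintype.card_subtype_compl, Fintype.card_fin, Fintype.card_coe]
    rw [h5]
  have h6 : J.card ≤ n := by
    have := card_le_univ J
    simpa using this
  calc (univ.filter P).card * 2 ^ J.card
      ≤ 2 ^ (n - J.card) * J.card.choose (J.card / 2) * 2 ^ J.card := Nat.mul_le_mul_right _ h2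
    _ = J.card.choose (J.card / 2) * (2 ^ (n - J.card) * 2 ^ J.card) := by ring
    _ = J.card.choose (J.card / 2) * 2 ^ n := by rw [← pow_add, Nat.sub_add_cancel h6]

end Pool.Agent.V5helper29.RLS
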