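import Pool.Agent.V5helper29.RLS.Stm

set_option autoImplicit false

open MeasureTheory
open scoped ENNReal

namespace Pool.Agent.V5helper29.RLS

theorem two_eq_map (a d : ℝ) :
    two a d = Measure.map (val a d) ((2⁻¹ : ℝ≥0∞) • (Measure.count : Measure Bool)) := by
  have h1 : (Measure.count : Measure Bool) = Measure.dirac false + Measure.dirac true := by
    ext s _
    rw [Measure.count_apply_finite _ s.toFinite]
    classical
    have : (s.toFinite.toFinset).card = (if false ∈ s then 1 else 0) + (if true ∈ s then 1 else 0) := by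
      have e : s.toFinite.toFinset = Finset.univ.filter (fun b => b ∈ s) := by
        ext b
        simp
      rw [e, Finset.card_filter, Fintype.sum_bool, add_comm]
    rw [this, Measure.coe_add, Pi.add_apply, Measure.dirac_apply, Measure.dirac_apply]
    by_cases h0 : false ∈ s <;> by_cases h1 : true ∈ s <;> simp [h0, h1, one_add_one_eq_two]
  have hm : Measurable (val a d) := measurable_from_top
  rw [Measure.map_smul, h1, Measure.map_add _ _ hm, Measure.map_dirac' hm, Measure.map_dirac' hm]
  simp [two, val, smul_add]

instance : IsProbabilityMeasure ((2⁻¹ : ℝ≥0∞) • (Measure.count : Measure Bool)) := by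
  constructor
  rw [Measure.smul_apply, Measure.count_univ]
  simp
  exact ENNReal.inv_mul_cancel (by norm_num) (by norm_num)

theorem tr : S_TR := by
  classical
  intro a d n S hS
  set b : Measure Bool := (2⁻¹ : ℝ≥0∞) • (Measure.count : Measure Bool) with hb
  have hm : Measurable (val a d) := measurable_from_top
  have : IsProbabilityMeasure (b.map (val a d)) := Measure.isProbabilityMeasure_map hm.aemeasurable
  have h1 : Measure.pi (fun _ : Fin n => b.map (val a d)) =
      (Measure.pi fun _ : Fin n => b).map (fun x i => val a d (x i)) :=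
    (Measure.pi_map_pi (μ := fun _ : Fin n => b) (f := fun _ => val a d) fun _ => hm.aemeasurable).symm
  have hm2 : Measurable (fun (x : Fin n → Bool) (i : Fin n) => val a d (x i)) :=
    measurable_pi_lambda _ fun i => hm.comp (measurable_pi_apply i)
  have : IsProbabilityMeasure ((Measure.pi fun _ : Fin n => b).map (fun x i => val a d (x i))) :=
    Measure.isProbabilityMeasure_map hm2.aemeasurable
  have h2 : mat (two a d) n = (Measure.pi fun _ : Fin n => Measure.pi fun _ : Fin n => b).map
      (fun ξ i j => val a d (ξ i j)) := by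
    unfold mat
    rw [two_eq_map, ← hb, h1]
    exact (Measure.pi_map_pi (μ := fun _ : Fin n => Measure.pi fun _ : Fin n => b)
      (f := fun _ => fun (x : Fin n → Bool) (i : Fin n) => val a d (x i)) fun _ => hm2.aemeasurable).symm
  have hm3 : Measurable (fun (ξ : Fin n → Fin n → Bool) (i j : Fin n) => val a d (ξ i j)) :=
    measurable_pi_lambda _ fun i => hm2.comp (measurable_pi_apply i)
  rw [h2, Measure.map_apply hm3 hS]
  set T : Set (Fin n → Fin n → Bool) := (fun ξ i j => val a d (ξ i j)) ⁻¹' S with hT
  have hb1 : ∀ x : Bool, b {x} = 2⁻¹ := by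
    intro x
    rw [hb, Measure.smul_apply, Measure.count_singleton]
    simp
  have hs : ∀ ξ : Fin n → Fin n → Bool,
      (Measure.pi fun _ : Fin n => Measure.pi fun _ : Fin n => b) {ξ} = (2⁻¹ : ℝ≥0∞) ^ (n * n) := by
    intro ξ
    rw [Measure.pi_singleton]
    simp only [Measure.pi_singleton, hb1, Finset.prod_const, Finset.card_univ, Fintype.card_fin]
    rw [← pow_mul]
  have h3 : (Measure.pi fun _ : Fin n => Measure.pi fun _ : Fin n => b) T =
      ∑ ξ ∈ T.toFinite.toFinset, (Measure.pi fun _ : Fin n => Measure.pi fun _ : Fin n => b) {ξ} := by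
    rw [sum_measure_singleton, Set.Finite.coe_toFinset]
  rw [h3]
  simp only [hs, Finset.sum_const, nsmul_eq_mul]
  rw [← Set.ncard_eq_toFinset_card T T.toFinite, ← ENNReal.inv_pow, div_eq_mul_inv]
  rfl

end Pool.Agent.V5helper29.RLS
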